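import Pool.Agent.H10.Pro.Final

/-!
# MP_0dcdae_al: pronormality of the maximal tori in the Chevalley groups of type `A`

`K` is a finite field, `L i` (`i : ι`) finitely many finite extensions of `K`, and
`torus K L = ∏ L_i^×` is the maximal torus of `GLP K L = GL_K(∏ L_i) ≅ GL_n(q)` of type
`([L_i : K])_i` (every maximal torus of `GL_n(q)` is of this form). `Γ` is any group with
`SL ≤ Γ ≤ GL` and `N` any normal subgroup of `Γ` inside the torus, and the theorem is about the
torus `torusQ Γ N = (torus ∩ Γ) / N` of `Γ / N`.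
-/

namespace Pool.Agent.Results.MP_0dcdae_al.TypeATori

open Pool.Agent.H10.Pro

theorem result (K : Type) [Field K] [Finite K] {ι : Type} [Fintype ι] (L : ι → Type)
    [∀ i, Field (L i)] [∀ i, Algebra K (L i)] [∀ i, FiniteDimensional K (L i)]
    (Γ : Subgroup (GLP K L)) (hΓ : (detP K L).ker ≤ Γ)
    (N : Subgroup Γ) [N.Normal] (hN : N ≤ (torus K L).subgroupOf Γ) :
    (¬ DistinctSums (deg K L) → ¬ IsPronormal (torusQ Γ N)) ∧
    (31 ≤ Nat.card K →
      2 ^ Fintype.card ι + Fintype.card ι *
        (min (∑ i, deg K L i) (Γ.map (detP K L)).index + 1) ≤ Nat.card K →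
      (IsPronormal (torusQ Γ N) ↔ DistinctSums (deg K L))) :=
  main Γ hΓ N hN

end Pool.Agent.Results.MP_0dcdae_al.TypeATori
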