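import Pool.Agent.CTO.Data
import Pool.Agent.CTO.Iso
import Pool.Agent.CTO.X6
import Pool.Agent.CTE.X6

/-!
# MP_0dcdae_al: pronormality of the maximal tori in the Chevalley groups of type `C`

`K` is a finite field of any characteristic, `P i` and `L j` are finite extension fields of `K`, `τ j` an
automorphism of order two of `L j`, `A = ∏ (P i × P i) × ∏ L j` with the involution which exchanges the
two factors of `P i × P i` and is `τ j` on `L j`, `f` any nondegenerate alternating form on `A` with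
`f (a v) w = f v (a* w)`. The units of `A` in the symplectic group `Sp(f)` (or in the group of
similitudes) form a maximal torus, with positive cycles of length `[P i : K]` and negative cycles of
length `[L j : K] / 2`, and every maximal torus is of this form. In characteristic two the
symplectic groups are also the groups of type `B`.
-/

namespace Pool.Agent.Results.MP_0dcdae_al.TypeC

open Pool.Agent.CTO Pool.Agent.CTE Module

theorem result (n : ℕ) : ∃ q0 : ℕ, ∀ (K : Type) [Field K] [Finite K] (D : TorData K)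
    (f : D.A → D.A → K) (Γ : Subgroup D.G) (N : Subgroup Γ) [N.Normal]
    (X : Type) [Group X] (π : X →* D.Quot Γ N),
    D.dim = n → q0 ≤ Nat.card K →
    IsHF (RingHom.id K) (-1) f → (∀ v, f v v = 0) → D.IsAdapted f → D.isom f ≤ Γ → Γ ≤ D.sim f →
    N ≤ D.torus.subgroupOf Γ → Function.Surjective π →
    (IsPronormal ((D.torusQ Γ N).comap π) ↔
      D.SumsDistinct ∧ ((2 : K) = 0 → ∀ i, Odd (D.posLen i))) := by
  obtain ⟨q1, h1⟩ := finalC n
  obtain ⟨q2, h2⟩ := finalC2 n
  refine ⟨max q1 q2, ?_⟩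
  intro K _ _ D f Γ N hN X _ π hn hq hf ha had hΓ1 hΓ2 hNT hπ
  have hq1 : q1 ≤ Nat.card K := (le_max_left _ _).trans hq
  have hq2 : q2 ≤ Nat.card K := (le_max_right _ _).trans hq
  rw [isPronormal_comap_iff π hπ]
  have hΓ2' : Γ ≤ Sim (V := D.A) f := by
    intro g hg
    obtain ⟨μ, hμ0, hμ⟩ := hΓ2 hg
    exact ⟨Units.mk0 μ hμ0, hμ⟩
  by_cases two : (2 : K) = 0
  · have h3 : (-1 : K) = 1 := by
      have : (1 : K) + 1 = 0 := by rw [← two]; norm_num
      exact (eq_neg_of_add_eq_zero_left this).symm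
    have hf' : IsHF (RingHom.id K) 1 f := by
      rw [h3] at hf
      exact hf
    have h4 := @h2 K _ _ D.ι D.κ D.ζ _ _ _ D.P D.L _ _ _ _ _ _ D.τ f Γ N hN hn hq2 two D.invol
      D.nontriv hf' ha had hΓ1 hΓ2' hNT
    exact h4.trans (and_congr_right fun _ => ⟨fun h _ => h, fun h => h two⟩)
  · have h4 := @h1 K _ _ D.ι D.κ D.ζ _ _ _ _ D.P D.L _ _ _ _ _ _ D.τ f Γ N hN hn hq1 two D.invol
      D.nontriv hf had hΓ1 hΓ2' hNT
    exact h4.trans ⟨fun h => ⟨h, fun h' => absurd h' two⟩, fun h => h.1⟩

end Pool.Agent.Results.MP_0dcdae_al.TypeC
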