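import Pool.Agent.CTE.Data2
import Pool.Agent.CTE.V5
import Pool.Agent.CTO.Iso

/-!
# MP_0dcdae_al: pronormality of the maximal tori in the groups of type `D` in characteristic two

`K` is a finite field of characteristic two, `P i` and `L j` are finite extension fields of `K`, `τ j` an
automorphism of order two of `L j`, `A = ∏ (P i × P i) × ∏ L j` with the involution which exchanges the
two factors of `P i × P i` and is `τ j` on `L j`, `Q` any quadratic form on `A` with nondegenerate polar
form `f`, `f (a v) w = f v (a* w)`, and `Q (a v) = Q v` if `a* a = 1`. The units of `A` in the orthogonal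
group of `Q` form a maximal torus, with positive cycles of length `[P i : K]` and negative cycles of
length `[L j : K] / 2`, and every maximal torus is of this form.
-/

namespace Pool.Agent.Results.MP_0dcdae_al.TypeDEven

open Pool.Agent.CTO Pool.Agent.CTE Module

theorem result (n : ℕ) (hn : 3 ≤ n) : ∃ q0 : ℕ, ∀ (K : Type) [Field K] [Finite K]
    (D : TorData K) (f : D.A → D.A → K) (Q : D.A → K) (Γ : Subgroup D.G) (N : Subgroup Γ)
    [N.Normal] (X : Type) [Group X] (π : X →* D.Quot Γ N),
    D.dim = n → q0 ≤ Nat.card K → (2 : K) = 0 →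
    IsHF (RingHom.id K) 1 f → D.IsAdapted f → IsQF f Q → D.IsInvariant Q →
    D.omega f Q ≤ Γ → D.InScalarTimes Γ (D.omega f Q) →
    N ≤ D.torus.subgroupOf Γ → Function.Surjective π →
    (IsPronormal ((D.torusQ Γ N).comap π) ↔
      (D.SignedSumsDistinct ∧ ∀ i, Odd (D.posLen i)) ∨ D.SingleTwoModFour) := by
  obtain ⟨q0, h⟩ := finalD2' n hn
  refine ⟨q0, ?_⟩
  intro K _ _ D f Q Γ N hN X _ π h1 h2 h3 hf had hQ hinv hΓ1 hΓ2 h10 h11
  rw [isPronormal_comap_iff π h11]
  have ha : Alt f := by
    intro v
    have e1 := hQ.add v v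
    have e2 : v + v = (2 : K) • v := by rw [two_smul]
    rw [e2, h3, hQ.smul] at e1
    have e3 : Q v + Q v = 2 * Q v := by ring
    rw [e3, h3] at e1
    simpa using e1.symm
  exact @h K _ _ D.ι D.κ D.ζ _ _ _ D.P D.L _ _ _ _ _ _ D.τ f Q Γ N hN h1 h2 h3 D.invol D.nontriv
    hf ha had hQ hinv hΓ1 hΓ2 h10

end Pool.Agent.Results.MP_0dcdae_al.TypeDEven
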