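import Pool.Agent.CTO.Data
import Pool.Agent.CTO.V5
import Pool.Agent.CTO.Iso

/-!
# MP_0dcdae_al: pronormality of the maximal tori in the Chevalley groups of types `B` and `D`

`K` is a finite field of odd order, `P i` and `L j` are finite extension fields of `K`, `τ j` an
automorphism of order two of `L j`, `ζ` is empty (type `D`) or a point (type `B`),
`A = ∏ (P i × P i) × ∏ L j × K^ζ` with the involution which exchanges the two factors of `P i × P i`, is
`τ j` on `L j` and trivial on `K^ζ`, `f` any nondegenerate symmetric form on `A` with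
`f (a v) w = f v (a* w)`. The units of `A` in `SO(f)` (or in the group of proper similitudes) form a
maximal torus, with positive cycles of length `[P i : K]` and negative cycles of length
`[L j : K] / 2`, and every maximal torus is of this form.
-/

namespace Pool.Agent.Results.MP_0dcdae_al.TypesBD

open Pool.Agent.CTO Module

theorem result (n : ℕ) (hn : 3 ≤ n) : ∃ q0 : ℕ, ∀ (K : Type) [Field K] [Finite K]
    (D : TorData K) (f : D.A → D.A → K) (Γ : Subgroup D.G) (N : Subgroup Γ) [N.Normal]
    (X : Type) [Group X] (π : X →* D.Quot Γ N),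
    D.dim = n → q0 ≤ Nat.card K → (2 : K) ≠ 0 →
    IsHF (RingHom.id K) 1 f → D.IsAdapted f → ⁅D.sisom f, D.sisom f⁆ ≤ Γ → Γ ≤ D.sim f →
    (Even n → D.Proper f Γ) → N ≤ D.torus.subgroupOf Γ → Function.Surjective π →
    (IsPronormal ((D.torusQ Γ N).comap π) ↔
      (D.SignedSumsDistinct ∧ ∀ i, Odd (D.posLen i)) ∨ D.SingleTwoModFour) := by
  obtain ⟨q0, h⟩ := finalBD' n hn
  refine ⟨q0, ?_⟩
  intro K _ _ D f Γ N hN X _ π h1 h2 h3 h6 h7 h8 h9 h9' h10 h11
  rw [isPronormal_comap_iff π h11]
  have hs : D.sisom f = SIsom (V := D.A) f := by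
    ext g
    refine and_congr_right fun _ => ?_
    have h12 : D.det g = ((LinearEquiv.det (R := K) (M := D.A) g : Kˣ) : K) :=
      (LinearEquiv.coe_det (R := K) (M := D.A) g).symm
    rw [h12]
    exact (Units.ext_iff (u := LinearEquiv.det (R := K) (M := D.A) g) (v := 1)).symm
  refine @h K _ _ D.ι D.κ D.ζ _ _ _ _ D.P D.L _ _ _ _ _ _ D.τ f Γ N hN h1 h2 h3 D.invol D.nontriv
    h6 h7 (by rw [hs] at h8; exact h8) ?_ ?_ h10
  · intro g hg
    obtain ⟨μ, hμ0, hμ⟩ := h9 hg
    exact ⟨Units.mk0 μ hμ0, hμ⟩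
  · intro hne g hg μ hμ
    have h12 := h9' hne g hg μ hμ
    rw [h1] at h12
    exact (LinearEquiv.coe_det (R := K) (M := D.A) g).trans h12

end Pool.Agent.Results.MP_0dcdae_al.TypesBD
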